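import Pool.Agent.Q16.FE.UPB
import Pool.Agent.W424.NC.ArmLow

set_option autoImplicit false

/-! Project FE (helper78), job FE-UP. -/

namespace Q16.FE

open Finset H974 Pool.Agent.H160R2.CV Pool.Agent.H160R2.CV.Quad H362P Q78.FE

theorem NW_anti' {κ a p : ℝ} {N M : ℕ} (h : NW κ a p N) (hM : M ≤ N) : NW κ a p M :=
  ⟨h.lo, h.hi, h.win.anti hM, fun k h1 h2 => h.arm k h1 (h2.trans hM)⟩

theorem exp_poly {a c : ℝ} (ha : 0 ≤ a) (hc : 0 < c) : ∃ D : ℝ, 0 < D ∧ ∀ z : ℝ, 0 ≤ z →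
    (1 + z) ^ a * Real.exp (-(c * z)) ≤ D * Real.exp (-(c / 2 * z)) := by
  set δ : ℝ := min 1 (c / (2 * (a + 1))) with hδ
  have hδ0 : 0 < δ := lt_min one_pos (by positivity)
  have hδ1 : δ ≤ 1 := min_le_left _ _
  have hδ2 : a * δ ≤ c / 2 := by
    calc a * δ ≤ a * (c / (2 * (a + 1))) := mul_le_mul_of_nonneg_left (min_le_right _ _) ha
      _ = a / (a + 1) * (c / 2) := by field_simp
      _ ≤ 1 * (c / 2) := by
          apply mul_le_mul_of_nonneg_right _ (by positivity)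
          rw [div_le_one (by linarith)]
          linarith
      _ = c / 2 := one_mul _
  refine ⟨(1 / δ) ^ a, by positivity, fun z hz => ?_⟩
  have h1 : 1 + z ≤ 1 / δ * Real.exp (δ * z) := by
    have h2 := Real.add_one_le_exp (δ * z)
    have h3 : δ * (1 + z) ≤ Real.exp (δ * z) := by nlinarith
    rw [div_mul_eq_mul_div, one_mul, le_div_iff₀ hδ0]
    linarith
  have h2 : (1 + z) ^ a ≤ (1 / δ) ^ a * Real.exp (c / 2 * z) := by
    calc (1 + z) ^ a ≤ (1 / δ * Real.exp (δ * z)) ^ a := Real.rpow_le_rpow (by linarith) h1 ha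
      _ = (1 / δ) ^ a * Real.exp (δ * z) ^ a := Real.mul_rpow (by positivity) (Real.exp_pos _).le
      _ = (1 / δ) ^ a * Real.exp (a * δ * z) := by
          rw [← Real.exp_mul]
          congr 2
          ring
      _ ≤ (1 / δ) ^ a * Real.exp (c / 2 * z) := by
          gcongr
  calc (1 + z) ^ a * Real.exp (-(c * z)) ≤ (1 / δ) ^ a * Real.exp (c / 2 * z) * Real.exp (-(c * z)) := by gcongr
    _ = (1 / δ) ^ a * Real.exp (-(c / 2 * z)) := by
        rw [mul_assoc, ← Real.exp_add]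
        congr 2
        ring

/-- conversion of the exponential factor if the size is small -/
theorem conv {e c L : ℝ} (he : 0 ≤ e) (hc : 0 < c) (hL : 0 < L) : ∃ D : ℝ, 0 < D ∧ ∀ N z : ℝ, 0 < N → 0 ≤ z →
    N ≤ L * (1 + z) → Real.exp (-(c * z)) ≤ D * N ^ (-e) * Real.exp (-(c / 2 * z)) := by
  obtain ⟨D, hD, h⟩ := exp_poly he hc
  refine ⟨L ^ e * D, by positivity, fun N z hN hz hNL => ?_⟩
  have h1 : N ^ e ≤ L ^ e * (1 + z) ^ e := by
    rw [← Real.mul_rpow hL.le (by linarith)]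
    exact Real.rpow_le_rpow hN.le hNL he
  have h2 : 0 < N ^ e := by positivity
  have h3 : Real.exp (-(c * z)) = N ^ (-e) * (N ^ e * Real.exp (-(c * z))) := by
    rw [Real.rpow_neg hN.le]
    field_simp
  rw [h3]
  calc N ^ (-e) * (N ^ e * Real.exp (-(c * z))) ≤ N ^ (-e) * (L ^ e * (1 + z) ^ e * Real.exp (-(c * z))) := by gcongr
    _ = N ^ (-e) * L ^ e * ((1 + z) ^ e * Real.exp (-(c * z))) := by ring
    _ ≤ N ^ (-e) * L ^ e * (D * Real.exp (-(c / 2 * z))) :=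
        mul_le_mul_of_nonneg_left (h z hz) (by positivity)
    _ = _ := by ring

/-- the powers of the scale -/
theorem pw {s N q b : ℝ} (hs : 0 < s) (hN : 0 < N) :
    s ^ (-(91 / 48 * q)) * N ^ (-b) = N ^ (-(q + b)) * (N / s ^ (91 / 48 : ℝ)) ^ q := by
  have h1 : 0 < s ^ (91 / 48 : ℝ) := by positivity
  rw [Real.div_rpow hN.le h1.le, ← Real.rpow_mul hs.le, Real.rpow_neg hs.le, neg_add, Real.rpow_add hN, Real.rpow_neg hN.le q]
  have h2 : 0 < N ^ q := by positivity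
  field_simp

/-- the sum over the scales -/
theorem scale_sum {q c : ℝ} (hq : 0 ≤ q) (hc : 0 < c) : ∃ D : ℝ, 0 < D ∧ ∀ (A : ℕ) (M : ℕ → ℝ) (N : ℝ), 0 < N →
    (∀ i, 0 < M i) → (∀ i, i < A → M i ≤ M A * (1 / 2) ^ (A - i)) → M A ≤ 64 * N →
    ∑ i ∈ range A, (N / M i) ^ q * Real.exp (-(c * (N / M i))) ≤ D := by
  obtain ⟨D, hD, h⟩ := exp_poly hq hc
  refine ⟨D * (2 / c) * 64, by positivity, fun A M N hN hM hMA hMN => ?_⟩
  have h1 : ∀ i ∈ range A, (N / M i) ^ q * Real.exp (-(c * (N / M i))) ≤ D * (2 / c) * 64 * (1 / 2) ^ (A - i) := by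
    intro i hi
    have hiA := Finset.mem_range.1 hi
    have hx : 0 < N / M i := div_pos hN (hM i)
    set x := N / M i with hxd
    have h2 : x ^ q ≤ (1 + x) ^ q := Real.rpow_le_rpow hx.le (by linarith) hq
    have h3 := h x hx.le
    have h4 : Real.exp (-(c / 2 * x)) ≤ 2 / c * (1 / x) := by
      rw [Real.exp_neg]
      have h5 := Real.add_one_le_exp (c / 2 * x)
      have h6 : c / 2 * x ≤ Real.exp (c / 2 * x) := by linarith
      calc (Real.exp (c / 2 * x))⁻¹ ≤ (c / 2 * x)⁻¹ := inv_anti₀ (by positivity) h6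
        _ = 2 / c * (1 / x) := by field_simp
    have h7 : 1 / x ≤ 64 * (1 / 2) ^ (A - i) := by
      rw [hxd, one_div_div, div_le_iff₀ hN]
      calc M i ≤ M A * (1 / 2) ^ (A - i) := hMA i hiA
        _ ≤ 64 * N * (1 / 2) ^ (A - i) := by gcongr
        _ = _ := by ring
    calc x ^ q * Real.exp (-(c * x)) ≤ (1 + x) ^ q * Real.exp (-(c * x)) := by gcongr
      _ ≤ D * Real.exp (-(c / 2 * x)) := h3
      _ ≤ D * (2 / c * (64 * (1 / 2) ^ (A - i))) := by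
          have : Real.exp (-(c / 2 * x)) ≤ 2 / c * (64 * (1 / 2) ^ (A - i)) := h4.trans (by gcongr)
          gcongr
      _ = _ := by ring
  refine (Finset.sum_le_sum h1).trans ?_
  rw [← Finset.mul_sum]
  have h2 : ∑ i ∈ range A, (1 / 2 : ℝ) ^ (A - i) ≤ 1 := by
    have h3 : ∀ A : ℕ, ∑ i ∈ range A, (1 / 2 : ℝ) ^ (A - i) = 1 - (1 / 2) ^ A := by
      intro A
      induction A with
      | zero => simp
      | succ A ih =>
        rw [Finset.sum_range_succ]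
        have h4 : ∑ i ∈ range A, (1 / 2 : ℝ) ^ (A + 1 - i) = 1 / 2 * ∑ i ∈ range A, (1 / 2 : ℝ) ^ (A - i) := by
          rw [Finset.mul_sum]
          apply Finset.sum_congr rfl
          intro i hi
          have := Finset.mem_range.1 hi
          rw [show A + 1 - i = (A - i) + 1 by omega, pow_succ]
          ring
        rw [h4, ih, show A + 1 - A = 1 by omega, pow_succ]
        ring
    rw [h3]
    have : (0 : ℝ) ≤ (1 / 2) ^ A := by positivity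
    linarith
  calc D * (2 / c) * 64 * ∑ i ∈ range A, (1 / 2 : ℝ) ^ (A - i) ≤ D * (2 / c) * 64 * 1 := by gcongr
    _ = _ := mul_one _

/-- clusters which do not reach the boundary of a box are small -/
theorem Sz_small {n R : ℕ} {F : Finset Edg} (h : ¬ ∃ i, fl R (0, 0) i F) : Sz n (0, 0) F ≤ (2 * R + 1) ^ 2 := by
  classical
  have h1 : (bx n).filter (fun v => Reach (↑F) (0, 0) v) ⊆ bx R := by
    intro v hv
    have hr := (Finset.mem_filter.1 hv).2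
    by_contra hcon
    apply h
    have hout : v.1 ≤ -(R : ℤ) ∨ (R : ℤ) ≤ v.1 ∨ v.2 ≤ -(R : ℤ) ∨ (R : ℤ) ≤ v.2 := by
      unfold bx at hcon
      rw [Finset.mem_product, Finset.mem_Icc, Finset.mem_Icc] at hcon
      by_contra h2
      push Not at h2
      exact hcon ⟨⟨by omega, by omega⟩, ⟨by omega, by omega⟩⟩
    obtain ⟨w, hw, hwb, hwr⟩ := first_exit (a := -(R : ℤ)) (b := R) (c := -(R : ℤ)) (d := R) (u := (0, 0))
      ⟨⟨by simp, by simp⟩, ⟨by simp, by simp⟩⟩ hr hout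
    rcases hwb with h1 | h1 | h1 | h1
    · exact ⟨1, w, h1, hwr⟩
    · exact ⟨0, w, h1, hwr⟩
    · exact ⟨3, w, h1, hwr⟩
    · exact ⟨2, w, h1, hwr⟩
  have h2 : (bx R).card = (2 * R + 1) ^ 2 := by
    unfold bx
    rw [Finset.card_product, Int.card_Icc]
    have : ((R : ℤ) + 1 - -(R : ℤ)).toNat = 2 * R + 1 := by omega
    rw [this]
    ring
  unfold Sz
  rw [← h2]
  exact Finset.card_le_card (by convert h1)

theorem f_eq {p : ℝ} {n s k : ℕ} (hk : (16 * s + 1) ^ 2 < k) :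
    Pr (fun _ => p) (boxE n) (fun F => Sz n (0, 0) F = k) = HH p n s k := by
  unfold HH
  apply Pr_congr
  intro F _
  constructor
  · intro h
    refine ⟨h, ?_⟩
    by_contra hcon
    have h1 := Sz_small (n := n) hcon
    rw [h, show 2 * (8 * s) + 1 = 16 * s + 1 by ring] at h1
    omega
  · exact fun h => h.1

theorem pf_nonneg (p : unitInterval) (N : ℕ) : 0 ≤ pf p N := MeasureTheory.measureReal_nonneg

/-- the tail bound in infinite volume -/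
theorem pf_tail {c₂ C₂ : ℝ} (hC₂ : 0 < C₂) (hTL : ∀ (p : ℝ) (n : ℕ), 0 ≤ p → p ≤ 1 / 2 →
    ∀ y : ℝ, 1 ≤ y → Pr (fun _ => p) (boxE n) (fun F => y ≤ (Sz n (0, 0) F : ℝ)) ≤
    C₂ * y ^ (-(5 / 91) : ℝ) * Real.exp (-(c₂ * (y * (1 / 2 - p) ^ (91 / 36 : ℝ))))) (hINF : S_INF) (p : unitInterval)
    (hp : (p : ℝ) ≤ 1 / 2) {N k : ℕ} (hN : 1 ≤ N) (hk : N ≤ k) :
    pf p k ≤ C₂ * Real.exp (-(c₂ * (N * (1 / 2 - (p : ℝ)) ^ (91 / 36 : ℝ)))) := by
  rw [hINF p k (k + 1) le_rfl]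
  have hok := ok_const p.2.1 p.2.2
  have hN1 : (1 : ℝ) ≤ N := by exact_mod_cast hN
  refine (Pr_mono hok (B := fun F => (N : ℝ) ≤ (Sz (k + 1) (0, 0) F : ℝ)) fun F _ h => ?_).trans ?_
  · have h1 : N ≤ Sz (k + 1) (0, 0) F := by rw [h]; exact hk
    exact_mod_cast h1
  · refine (hTL p (k + 1) p.2.1 hp N hN1).trans ?_
    have h1 : (N : ℝ) ^ (-(5 / 91) : ℝ) ≤ 1 := Real.rpow_le_one_of_one_le_of_nonpos hN1 (by norm_num)
    calc C₂ * (N : ℝ) ^ (-(5 / 91) : ℝ) * Real.exp (-(c₂ * (N * (1 / 2 - (p : ℝ)) ^ (91 / 36 : ℝ)))) ≤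
          C₂ * 1 * Real.exp (-(c₂ * (N * (1 / 2 - (p : ℝ)) ^ (91 / 36 : ℝ)))) := by gcongr
      _ = _ := by rw [mul_one]

/-- one claim of the theorem, for one parameter and one size -/
def Cl (c C : ℝ) (p : unitInterval) (N : ℕ) : Prop :=
  pf p N ≤ C * (N : ℝ) ^ (-(96 / 91) : ℝ) * Real.exp (-(c * (N * (1 / 2 - (p : ℝ)) ^ (91 / 36 : ℝ)))) ∧
  |pf p (N + 1) - pf p N| ≤ C * (N : ℝ) ^ (-(187 / 91) : ℝ) *
    Real.exp (-(c * (N * (1 / 2 - (p : ℝ)) ^ (91 / 36 : ℝ))))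

theorem Cl.mono {c C c' C' : ℝ} {p : unitInterval} {N : ℕ} (h : Cl c C p N) (hp : (p : ℝ) ≤ 1 / 2) (hc : c' ≤ c)
    (hC : C ≤ C') (hC0 : 0 ≤ C) : Cl c' C' p N := by
  have hτ : 0 ≤ (1 / 2 - (p : ℝ)) ^ (91 / 36 : ℝ) := Real.rpow_nonneg (by linarith) _
  have hNτ : 0 ≤ (N : ℝ) * (1 / 2 - (p : ℝ)) ^ (91 / 36 : ℝ) := by positivity
  have hE : Real.exp (-(c * (N * (1 / 2 - (p : ℝ)) ^ (91 / 36 : ℝ)))) ≤
      Real.exp (-(c' * (N * (1 / 2 - (p : ℝ)) ^ (91 / 36 : ℝ)))) := by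
    apply Real.exp_le_exp.2
    have := mul_le_mul_of_nonneg_right hc hNτ
    linarith
  have hC'0 : 0 ≤ C' := hC0.trans hC
  exact ⟨h.1.trans (by gcongr), h.2.trans (by gcongr)⟩

/-- the case of small sizes or large distance from the critical point -/
theorem small_case (hTL : S_TL) (hINF : S_INF) : ∃ c : ℝ, 0 < c ∧ ∀ L : ℝ, 0 < L → ∃ C : ℝ, 0 < C ∧
    ∀ p : unitInterval, (p : ℝ) ≤ 1 / 2 → ∀ N : ℕ, 1 ≤ N →
    (N : ℝ) ≤ L * (1 + N * (1 / 2 - (p : ℝ)) ^ (91 / 36 : ℝ)) → Cl c C p N := by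
  obtain ⟨c₂, C₂, hc₂, hC₂, htl⟩ := hTL
  refine ⟨c₂ / 2, by positivity, fun L hL => ?_⟩
  obtain ⟨D₁, hD₁, h₁⟩ := conv (e := 96 / 91) (by norm_num) hc₂ hL
  obtain ⟨D₂, hD₂, h₂⟩ := conv (e := 187 / 91) (by norm_num) hc₂ hL
  refine ⟨C₂ * (D₁ + D₂), by positivity, fun p hp N hN hNL => ?_⟩
  have hN0 : (0 : ℝ) < N := by exact_mod_cast hN
  have hτ : 0 ≤ (1 / 2 - (p : ℝ)) ^ (91 / 36 : ℝ) := Real.rpow_nonneg (by linarith) _
  have hz : 0 ≤ (N : ℝ) * (1 / 2 - (p : ℝ)) ^ (91 / 36 : ℝ) := by positivity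
  have a1 := pf_tail hC₂ htl hINF p hp hN (le_refl N)
  have a2 := pf_tail hC₂ htl hINF p hp hN (Nat.le_succ N)
  have b1 := h₁ N _ hN0 hz hNL
  have b2 := h₂ N _ hN0 hz hNL
  set E := Real.exp (-(c₂ / 2 * (N * (1 / 2 - (p : ℝ)) ^ (91 / 36 : ℝ)))) with hE
  have hE0 : 0 < E := Real.exp_pos _
  constructor
  · calc pf p N ≤ C₂ * (D₁ * (N : ℝ) ^ (-(96 / 91) : ℝ) * E) := a1.trans (mul_le_mul_of_nonneg_left b1 hC₂.le)
      _ ≤ C₂ * ((D₁ + D₂) * (N : ℝ) ^ (-(96 / 91) : ℝ) * E) := by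
          gcongr
          linarith
      _ = _ := by ring
  · have a3 : |pf p (N + 1) - pf p N| ≤ C₂ * Real.exp (-(c₂ * (N * (1 / 2 - (p : ℝ)) ^ (91 / 36 : ℝ)))) := by
      have := pf_nonneg p N
      have := pf_nonneg p (N + 1)
      rw [abs_le]
      constructor <;> linarith
    calc |pf p (N + 1) - pf p N| ≤ C₂ * (D₂ * (N : ℝ) ^ (-(187 / 91) : ℝ) * E) :=
          a3.trans (mul_le_mul_of_nonneg_left b2 hC₂.le)
      _ ≤ C₂ * ((D₁ + D₂) * (N : ℝ) ^ (-(187 / 91) : ℝ) * E) := by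
          gcongr
          linarith
      _ = _ := by ring

theorem s_pos {k0 : ℕ} (hk : 3 ≤ k0) (i : ℕ) : 0 < 20 * k0 * 2 ^ i := by positivity

/-- the case of scales -/
theorem scales_case (hINF : S_INF) (hUPH : S_UPH) (hUPD : S_UPD) {k0 : ℕ} (hk0 : K0P k0) {κ a L : ℝ} (hκ : 0 < κ)
    (ha : 0 < a) (hL : 0 < L) : ∃ c C : ℝ, 0 < c ∧ 0 < C ∧ ∀ p : unitInterval, (p : ℝ) ≤ 1 / 2 → ∀ N A : ℕ, 1 ≤ N →
    (16 * (20 * k0) + 1) ^ 2 < N → NW κ a p (20 * k0 * 2 ^ A) → ((20 * k0 * 2 ^ A : ℕ) : ℝ) ^ (91 / 48 : ℝ) ≤ 64 * N →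
    (N : ℝ) / ((20 * k0 * 2 ^ A : ℕ) : ℝ) ^ (91 / 48 : ℝ) ≤ L * (1 + N * (1 / 2 - (p : ℝ)) ^ (91 / 36 : ℝ)) →
    Cl c C p N := by
  obtain ⟨cH, CH, hcH, hCH, hH⟩ := hUPH k0 hk0 κ a 64 hκ ha (by norm_num)
  obtain ⟨cD, CD, hcD, hCD, hDD⟩ := hUPD k0 hk0 κ a 64 hκ ha (by norm_num)
  obtain ⟨D₁, hD₁, h₁⟩ := exp_poly (a := 187 / 182) (by norm_num) hcH
  obtain ⟨D₂, hD₂, h₂⟩ := exp_poly (a := 743 / 364) (by norm_num) hcH
  obtain ⟨D₃, hD₃, h₃⟩ := scale_sum (q := 379 / 364) (by norm_num) hcD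
  obtain ⟨D₄, hD₄, h₄⟩ := scale_sum (q := 1491 / 728) (by norm_num) hcD
  set c := min cD (cH / 2) with hc
  have hc0 : 0 < c := lt_min hcD (by positivity)
  refine ⟨c, CH * L ^ (187 / 182 : ℝ) * D₁ + CD * D₃ + (CH * L ^ (743 / 364 : ℝ) * D₂ + CD * D₄), hc0, by positivity, ?_⟩
  intro p hp N A hN hNbig hNW hB hx
  set s : ℕ → ℕ := fun i => 20 * k0 * 2 ^ i with hs
  have hs0 : ∀ i, 0 < s i := fun i => s_pos hk0.1 i
  have hs0' : ∀ i, (0 : ℝ) < s i := fun i => by exact_mod_cast hs0 i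
  have hN0 : (0 : ℝ) < N := by exact_mod_cast hN
  have hτ : 0 ≤ (1 / 2 - (p : ℝ)) ^ (91 / 36 : ℝ) := Real.rpow_nonneg (by linarith) _
  set τ := (1 / 2 - (p : ℝ)) ^ (91 / 36 : ℝ) with hτd
  have hz : 0 ≤ (N : ℝ) * τ := by positivity
  set M : ℕ → ℝ := fun i => (s i : ℝ) ^ (91 / 48 : ℝ) with hM
  have hM0 : ∀ i, 0 < M i := fun i => Real.rpow_pos_of_pos (hs0' i) _
  have hsmono : ∀ i j, i ≤ j → s i ≤ s j := fun i j hij =>
    Nat.mul_le_mul_left _ (Nat.pow_le_pow_right (by norm_num) hij)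
  have hMA : ∀ i, i < A → M i ≤ M A * (1 / 2) ^ (A - i) := by
    intro i hi
    have e1 : (s A : ℝ) = s i * 2 ^ (A - i) := by
      have e0 : (2 : ℝ) ^ A = 2 ^ i * 2 ^ (A - i) := by
        rw [← pow_add, show i + (A - i) = A by omega]
      simp only [hs]
      push_cast
      rw [e0]
      ring
    have e2 : M A = M i * ((2 : ℝ) ^ (A - i)) ^ (91 / 48 : ℝ) := by
      simp only [hM]
      rw [e1, Real.mul_rpow (hs0' i).le (by positivity)]
    have e3 : (2 : ℝ) ^ (A - i) ≤ ((2 : ℝ) ^ (A - i)) ^ (91 / 48 : ℝ) := by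
      calc (2 : ℝ) ^ (A - i) = ((2 : ℝ) ^ (A - i)) ^ (1 : ℝ) := (Real.rpow_one _).symm
        _ ≤ ((2 : ℝ) ^ (A - i)) ^ (91 / 48 : ℝ) :=
            Real.rpow_le_rpow_of_exponent_le (one_le_pow₀ (by norm_num)) (by norm_num)
    rw [e2]
    have h2 : (0 : ℝ) < 2 ^ (A - i) := by positivity
    have h3 := hM0 i
    calc M i = M i * 2 ^ (A - i) * (1 / 2) ^ (A - i) := by
          rw [mul_assoc, ← mul_pow]
          norm_num
      _ ≤ M i * ((2 : ℝ) ^ (A - i)) ^ (91 / 48 : ℝ) * (1 / 2) ^ (A - i) := by gcongr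
  have hMN : M A ≤ 64 * N := hB
  have hMN' : ∀ i, i ≤ A → (s i : ℝ) ^ (91 / 48 : ℝ) ≤ 64 * N := by
    intro i hi
    refine le_trans ?_ hMN
    simp only [hM]
    have : (s i : ℝ) ≤ s A := by exact_mod_cast hsmono i A hi
    exact Real.rpow_le_rpow (hs0' i).le this (by norm_num)
  -- the box
  set n := N + 2 + 20 * s A with hn
  have hf : ∀ k, N ≤ k → k ≤ N + 1 → pf p k = ∑ i ∈ range A, (HH p n (s i) k - HH p n (s (i + 1)) k) + HH p n (s A) k := by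
    intro k hk1 hk2
    rw [Finset.sum_range_sub', hINF p k n (by omega)]
    rw [f_eq (s := s 0)]
    · ring
    · simp only [hs, pow_zero, mul_one]
      omega
  have hs2 : ∀ i, s (i + 1) = 2 * s i := fun i => by simp only [hs]; rw [pow_succ]; ring
  have hDi : ∀ i ∈ range A, 0 ≤ HH p n (s i) N - HH p n (s (i + 1)) N ∧
      HH p n (s i) N - HH p n (s (i + 1)) N ≤
        CD * (N : ℝ) ^ (-(96 / 91) : ℝ) * Real.exp (-(cD * (N * τ))) * ((N / M i) ^ (379 / 364 : ℝ) * Real.exp (-(cD * (N / M i)))) ∧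
      |(HH p n (s i) (N + 1) - HH p n (s (i + 1)) (N + 1)) - (HH p n (s i) N - HH p n (s (i + 1)) N)| ≤
        CD * (N : ℝ) ^ (-(187 / 91) : ℝ) * Real.exp (-(cD * (N * τ))) * ((N / M i) ^ (1491 / 728 : ℝ) * Real.exp (-(cD * (N / M i)))) := by
    intro i hi
    have hiA := Finset.mem_range.1 hi
    have h5 : 2 * s i ≤ s A := by
      rw [← hs2]
      exact hsmono _ _ hiA
    obtain ⟨q1, q2, q3⟩ := hDD p i (s i) n N rfl (NW_anti' hNW h5) (by omega) hN (hMN' i hiA.le)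
    rw [hs2]
    refine ⟨q1, q2.trans (le_of_eq ?_), q3.trans (le_of_eq ?_)⟩
    · have e := pw (q := 379 / 364) (b := 5 / 364) (hs0' i) hN0
      rw [show -((91 : ℝ) / 48 * (379 / 364)) = -(379 / 192) by norm_num, show -((379 : ℝ) / 364 + 5 / 364) = -(96 / 91) by norm_num]
        at e
      rw [e]
      ring
    · have e := pw (q := 1491 / 728) (b := 5 / 728) (hs0' i) hN0
      rw [show -((91 : ℝ) / 48 * (1491 / 728)) = -(1491 / 384) by norm_num,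
        show -((1491 : ℝ) / 728 + 5 / 728) = -(187 / 91) by norm_num] at e
      rw [e]
      ring
  have hHA := hH p A (s A) n N rfl hNW (by omega) hN (hMN' A le_rfl)
  have hxA : 0 < (N : ℝ) / M A := div_pos hN0 (hM0 A)
  have hLz : 0 ≤ L * (1 + N * τ) := by positivity
  have hpow : ∀ {q : ℝ}, 0 ≤ q → ((N : ℝ) / M A) ^ q ≤ L ^ q * (1 + N * τ) ^ q := by
    intro q hq
    rw [← Real.mul_rpow hL.le (by positivity)]
    exact Real.rpow_le_rpow hxA.le hx hq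
  have hH1 : HH p n (s A) N ≤ CH * L ^ (187 / 182 : ℝ) * D₁ * (N : ℝ) ^ (-(96 / 91) : ℝ) * Real.exp (-(cH / 2 * (N * τ))) := by
    refine hHA.1.trans ?_
    have e := pw (q := 187 / 182) (b := 5 / 182) (hs0' A) hN0
    rw [show -((91 : ℝ) / 48 * (187 / 182)) = -(187 / 96) by norm_num, show -((187 : ℝ) / 182 + 5 / 182) = -(96 / 91) by norm_num] at e
    rw [e]
    calc CH * ((N : ℝ) ^ (-(96 / 91) : ℝ) * ((N : ℝ) / M A) ^ (187 / 182 : ℝ)) * Real.exp (-(cH * (N * τ))) ≤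
          CH * ((N : ℝ) ^ (-(96 / 91) : ℝ) * (L ^ (187 / 182 : ℝ) * (1 + N * τ) ^ (187 / 182 : ℝ))) * Real.exp (-(cH * (N * τ))) := by
          have := hpow (q := 187 / 182) (by norm_num)
          gcongr
      _ = CH * L ^ (187 / 182 : ℝ) * (N : ℝ) ^ (-(96 / 91) : ℝ) * ((1 + N * τ) ^ (187 / 182 : ℝ) * Real.exp (-(cH * (N * τ)))) := by ring
      _ ≤ CH * L ^ (187 / 182 : ℝ) * (N : ℝ) ^ (-(96 / 91) : ℝ) * (D₁ * Real.exp (-(cH / 2 * (N * τ)))) :=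
          mul_le_mul_of_nonneg_left (h₁ _ hz) (by positivity)
      _ = _ := by ring
  have hH2 : |HH p n (s A) (N + 1) - HH p n (s A) N| ≤
      CH * L ^ (743 / 364 : ℝ) * D₂ * (N : ℝ) ^ (-(187 / 91) : ℝ) * Real.exp (-(cH / 2 * (N * τ))) := by
    refine hHA.2.trans ?_
    have e := pw (q := 743 / 364) (b := 5 / 364) (hs0' A) hN0
    rw [show -((91 : ℝ) / 48 * (743 / 364)) = -(743 / 192) by norm_num, show -((743 : ℝ) / 364 + 5 / 364) = -(187 / 91) by norm_num] at e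
    rw [e]
    calc CH * ((N : ℝ) ^ (-(187 / 91) : ℝ) * ((N : ℝ) / M A) ^ (743 / 364 : ℝ)) * Real.exp (-(cH * (N * τ))) ≤
          CH * ((N : ℝ) ^ (-(187 / 91) : ℝ) * (L ^ (743 / 364 : ℝ) * (1 + N * τ) ^ (743 / 364 : ℝ))) * Real.exp (-(cH * (N * τ))) := by
          have := hpow (q := 743 / 364) (by norm_num)
          gcongr
      _ = CH * L ^ (743 / 364 : ℝ) * (N : ℝ) ^ (-(187 / 91) : ℝ) * ((1 + N * τ) ^ (743 / 364 : ℝ) * Real.exp (-(cH * (N * τ)))) := by ring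
      _ ≤ CH * L ^ (743 / 364 : ℝ) * (N : ℝ) ^ (-(187 / 91) : ℝ) * (D₂ * Real.exp (-(cH / 2 * (N * τ)))) :=
          mul_le_mul_of_nonneg_left (h₂ _ hz) (by positivity)
      _ = _ := by ring
  set E := Real.exp (-(c * (N * τ))) with hE
  have hE1 : Real.exp (-(cD * (N * τ))) ≤ E := by
    apply Real.exp_le_exp.2
    have := mul_le_mul_of_nonneg_right (min_le_left cD (cH / 2)) hz
    rw [← hc] at this
    linarith
  have hE2 : Real.exp (-(cH / 2 * (N * τ))) ≤ E := by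
    apply Real.exp_le_exp.2
    have := mul_le_mul_of_nonneg_right (min_le_right cD (cH / 2)) hz
    rw [← hc] at this
    linarith
  have hS3 := h₃ A M N hN0 hM0 hMA hMN
  have hS4 := h₄ A M N hN0 hM0 hMA hMN
  have hNp1 : (0 : ℝ) < (N : ℝ) ^ (-(96 / 91) : ℝ) := by positivity
  have hNp2 : (0 : ℝ) < (N : ℝ) ^ (-(187 / 91) : ℝ) := by positivity
  constructor
  · rw [hf N le_rfl (by omega)]
    have g1 : ∑ i ∈ range A, (HH p n (s i) N - HH p n (s (i + 1)) N) ≤ CD * D₃ * (N : ℝ) ^ (-(96 / 91) : ℝ) * E := by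
      calc ∑ i ∈ range A, (HH p n (s i) N - HH p n (s (i + 1)) N) ≤
            ∑ i ∈ range A, CD * (N : ℝ) ^ (-(96 / 91) : ℝ) * Real.exp (-(cD * (N * τ))) *
              ((N / M i) ^ (379 / 364 : ℝ) * Real.exp (-(cD * (N / M i)))) := Finset.sum_le_sum fun i hi => (hDi i hi).2.1
        _ = CD * (N : ℝ) ^ (-(96 / 91) : ℝ) * Real.exp (-(cD * (N * τ))) *
              ∑ i ∈ range A, (N / M i) ^ (379 / 364 : ℝ) * Real.exp (-(cD * (N / M i))) := by rw [Finset.mul_sum]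
        _ ≤ CD * (N : ℝ) ^ (-(96 / 91) : ℝ) * E * D₃ := by gcongr
        _ = _ := by ring
    have g2 : HH p n (s A) N ≤ CH * L ^ (187 / 182 : ℝ) * D₁ * (N : ℝ) ^ (-(96 / 91) : ℝ) * E := hH1.trans (by gcongr)
    have g3 : 0 ≤ (CH * L ^ (743 / 364 : ℝ) * D₂ + CD * D₄) * (N : ℝ) ^ (-(96 / 91) : ℝ) * E := by positivity
    linarith
  · rw [hf N le_rfl (by omega), hf (N + 1) (by omega) le_rfl]
    have g0 : (∑ i ∈ range A, (HH p n (s i) (N + 1) - HH p n (s (i + 1)) (N + 1)) + HH p n (s A) (N + 1)) -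
        (∑ i ∈ range A, (HH p n (s i) N - HH p n (s (i + 1)) N) + HH p n (s A) N) =
        ∑ i ∈ range A, ((HH p n (s i) (N + 1) - HH p n (s (i + 1)) (N + 1)) - (HH p n (s i) N - HH p n (s (i + 1)) N)) +
        (HH p n (s A) (N + 1) - HH p n (s A) N) := by
      rw [Finset.sum_sub_distrib (f := fun i => HH p n (s i) (N + 1) - HH p n (s (i + 1)) (N + 1))]
      ring
    rw [g0]
    have g1 : |∑ i ∈ range A, ((HH p n (s i) (N + 1) - HH p n (s (i + 1)) (N + 1)) -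
        (HH p n (s i) N - HH p n (s (i + 1)) N))| ≤ CD * D₄ * (N : ℝ) ^ (-(187 / 91) : ℝ) * E := by
      calc |∑ i ∈ range A, ((HH p n (s i) (N + 1) - HH p n (s (i + 1)) (N + 1)) - (HH p n (s i) N - HH p n (s (i + 1)) N))| ≤
            ∑ i ∈ range A, |(HH p n (s i) (N + 1) - HH p n (s (i + 1)) (N + 1)) - (HH p n (s i) N - HH p n (s (i + 1)) N)| :=
            Finset.abs_sum_le_sum_abs _ _
        _ ≤ ∑ i ∈ range A, CD * (N : ℝ) ^ (-(187 / 91) : ℝ) * Real.exp (-(cD * (N * τ))) *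
              ((N / M i) ^ (1491 / 728 : ℝ) * Real.exp (-(cD * (N / M i)))) := Finset.sum_le_sum fun i hi => (hDi i hi).2.2
        _ = CD * (N : ℝ) ^ (-(187 / 91) : ℝ) * Real.exp (-(cD * (N * τ))) *
              ∑ i ∈ range A, (N / M i) ^ (1491 / 728 : ℝ) * Real.exp (-(cD * (N / M i))) := by rw [Finset.mul_sum]
        _ ≤ CD * (N : ℝ) ^ (-(187 / 91) : ℝ) * E * D₄ := by gcongr
        _ = _ := by ring
    have g2 : |HH p n (s A) (N + 1) - HH p n (s A) N| ≤ CH * L ^ (743 / 364 : ℝ) * D₂ * (N : ℝ) ^ (-(187 / 91) : ℝ) * E :=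
      hH2.trans (by gcongr)
    have g3 : 0 ≤ (CH * L ^ (187 / 182 : ℝ) * D₁ + CD * D₃) * (N : ℝ) ^ (-(187 / 91) : ℝ) * E := by positivity
    refine (abs_add_le _ _).trans ?_
    linarith

theorem one_le_rp {C m t : ℝ} (hC : 0 ≤ C) (hm : 0 ≤ m) (ht : 0 ≤ t) (h : 1 ≤ C * (m * t ^ (4 / 3 : ℝ))) :
    1 ≤ C ^ (91 / 48 : ℝ) * m ^ (91 / 48 : ℝ) * t ^ (91 / 36 : ℝ) := by
  have h1 : (1 : ℝ) ≤ (C * (m * t ^ (4 / 3 : ℝ))) ^ (91 / 48 : ℝ) := Real.one_le_rpow h (by norm_num)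
  rw [Real.mul_rpow hC (by positivity), Real.mul_rpow hm (by positivity), ← Real.rpow_mul ht] at h1
  rw [show (4 : ℝ) / 3 * (91 / 48) = 91 / 36 by norm_num] at h1
  linarith

theorem t_UP (hK0 : S_K0) (hINF : S_INF) (hTL : S_TL) (hUPH : S_UPH) (hUPD : S_UPD) : S_UP := by
  obtain ⟨k0, hk0⟩ := hK0
  obtain ⟨κ, a, CG, hκ, ha, hCG, hG⟩ := Pool.Agent.W424.NC.nearG
  obtain ⟨cS, hcS, hsm⟩ := small_case hTL hINF
  have hk3 : 3 ≤ k0 := hk0.1
  have hk0' : (0 : ℝ) < k0 := by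
    have : 0 < k0 := by omega
    exact_mod_cast this
  set L : ℝ := (16 * (20 * (k0 : ℝ)) + 1) ^ 2 + (1 / 4 : ℝ) ^ (-(91 / 36) : ℝ) + (5 * (k0 : ℝ)) ^ (91 / 48 : ℝ) +
    CG ^ (91 / 48 : ℝ) * (5 * (k0 : ℝ)) ^ (91 / 48 : ℝ) with hL
  have l1 : 0 < (16 * (20 * (k0 : ℝ)) + 1) ^ 2 := by positivity
  have l2 : 0 < (1 / 4 : ℝ) ^ (-(91 / 36) : ℝ) := by positivity
  have l3 : 0 < (5 * (k0 : ℝ)) ^ (91 / 48 : ℝ) := by positivity
  have l4 : 0 < CG ^ (91 / 48 : ℝ) * (5 * (k0 : ℝ)) ^ (91 / 48 : ℝ) := by positivity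
  have hL0 : 0 < L := by positivity
  obtain ⟨CS, hCS, hS⟩ := hsm L hL0
  obtain ⟨cM, CM, hcM, hCM, hM⟩ := scales_case hINF hUPH hUPD hk0 hκ ha (L := 1 + CG ^ (91 / 48 : ℝ)) (by positivity)
  refine ⟨min cS cM, CS + CM, lt_min hcS hcM, by positivity, ?_⟩
  intro p hp N hN
  show Cl (min cS cM) (CS + CM) p N
  have hN0 : (0 : ℝ) < N := by exact_mod_cast hN
  have hN1 : (1 : ℝ) ≤ N := by exact_mod_cast hN
  have ht : 0 ≤ 1 / 2 - (p : ℝ) := by linarith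
  have hτ : 0 ≤ (1 / 2 - (p : ℝ)) ^ (91 / 36 : ℝ) := Real.rpow_nonneg ht _
  rcases le_or_gt (N : ℝ) (L * (1 + N * (1 / 2 - (p : ℝ)) ^ (91 / 36 : ℝ))) with hsmall | hbig
  · exact (hS p hp N hN hsmall).mono hp (min_le_left _ _) (by linarith) hCS.le
  refine Cl.mono ?_ hp (min_le_right cS cM) (by linarith : CM ≤ CS + CM) hCM.le
  set τ := (1 / 2 - (p : ℝ)) ^ (91 / 36 : ℝ) with hτd
  have hz : 0 ≤ (N : ℝ) * τ := by positivity
  have hpart : ∀ {l : ℝ}, 0 ≤ l → l ≤ L → l * (1 + N * τ) < N := by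
    intro l _ hl
    exact lt_of_le_of_lt (mul_le_mul_of_nonneg_right hl (by linarith)) hbig
  have hb1 : (16 * (20 * k0) + 1) ^ 2 < N := by
    have h1 := hpart l1.le (by rw [hL]; linarith)
    have h2 : (16 * (20 * (k0 : ℝ)) + 1) ^ 2 < N := by nlinarith
    exact_mod_cast h2
  have hp4 : 1 / 4 ≤ (p : ℝ) := by
    by_contra hcon
    push Not at hcon
    have h1 := hpart l2.le (by rw [hL]; linarith)
    have h2 : (1 / 4 : ℝ) ^ (91 / 36 : ℝ) ≤ τ := Real.rpow_le_rpow (by norm_num) (by linarith) (by norm_num)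
    have h3 : 1 ≤ (1 / 4 : ℝ) ^ (-(91 / 36) : ℝ) * τ := by
      calc (1 : ℝ) = (1 / 4 : ℝ) ^ (-(91 / 36) : ℝ) * (1 / 4 : ℝ) ^ (91 / 36 : ℝ) := by
            rw [← Real.rpow_add (by norm_num)]
            norm_num
        _ ≤ _ := by gcongr
    nlinarith
  set X : ℝ := (N : ℝ) ^ (48 / 91 : ℝ) with hX
  have hX1 : 1 ≤ X := Real.one_le_rpow hN1 (by norm_num)
  have hXN : X ^ (91 / 48 : ℝ) = N := by
    rw [hX, ← Real.rpow_mul hN0.le]
    norm_num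
  set n0 := ⌈X⌉₊ with hn0
  have hn1 : 1 ≤ n0 := Nat.one_le_iff_ne_zero.2 (by
    rw [hn0]
    exact (Nat.ceil_pos.2 (by linarith)).ne')
  have hn2 : X ≤ n0 := Nat.le_ceil X
  have hn3 : (n0 : ℝ) ≤ 2 * X := by
    have := Nat.ceil_lt_add_one (by linarith : 0 ≤ X)
    rw [← hn0] at this
    linarith
  obtain ⟨m, hm1, hmn, hwin, harm, hcase⟩ := hG p n0 hp4 hp hn1
  have hm0 : (0 : ℝ) ≤ m := Nat.cast_nonneg m
  have hNW : NW κ a p (4 * m) := ⟨hp4, hp, hwin, harm⟩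
  have hmk : 5 * k0 ≤ m := by
    by_contra hcon
    push Not at hcon
    have h1 : (m : ℝ) ≤ 5 * k0 := by exact_mod_cast hcon.le
    rcases hcase with h | h
    · have h2 := hpart l3.le (by rw [hL]; linarith)
      have h3 : (N : ℝ) ≤ (5 * (k0 : ℝ)) ^ (91 / 48 : ℝ) := by
        rw [← hXN]
        apply Real.rpow_le_rpow (by linarith) _ (by norm_num)
        rw [h] at h1
        linarith
      nlinarith
    · have h2 := hpart l4.le (by rw [hL]; linarith)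
      have h3 := one_le_rp hCG.le hm0 ht h
      have h4 : (m : ℝ) ^ (91 / 48 : ℝ) ≤ (5 * (k0 : ℝ)) ^ (91 / 48 : ℝ) := Real.rpow_le_rpow hm0 h1 (by norm_num)
      have h5 : 1 ≤ CG ^ (91 / 48 : ℝ) * (5 * (k0 : ℝ)) ^ (91 / 48 : ℝ) * τ := by
        refine h3.trans ?_
        have : 0 ≤ CG ^ (91 / 48 : ℝ) := by positivity
        gcongr
      nlinarith
  -- the largest scale
  set A := Nat.log 2 (4 * m / (20 * k0)) with hA
  have hq : 4 * m / (20 * k0) ≠ 0 := by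
    have : 1 ≤ 4 * m / (20 * k0) := by
      rw [Nat.le_div_iff_mul_le (by omega)]
      omega
    omega
  have hA1 : 20 * k0 * 2 ^ A ≤ 4 * m := by
    have h1 := Nat.pow_log_le_self 2 hq
    calc 20 * k0 * 2 ^ A ≤ 20 * k0 * (4 * m / (20 * k0)) := Nat.mul_le_mul_left _ h1
      _ ≤ 4 * m := Nat.mul_div_le _ _
  have hA2 : 4 * m < 20 * k0 * 2 ^ (A + 1) := by
    have h1 : 4 * m / (20 * k0) < 2 ^ (A + 1) := Nat.lt_pow_succ_log_self (by norm_num) _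
    rw [Nat.div_lt_iff_lt_mul (by omega)] at h1
    linarith
  have hA3 : m ≤ 20 * k0 * 2 ^ A := by
    have e : 20 * k0 * 2 ^ (A + 1) = 2 * (20 * k0 * 2 ^ A) := by
      rw [pow_succ]
      ring
    rw [e] at hA2
    omega
  have hsA : (0 : ℝ) < ((20 * k0 * 2 ^ A : ℕ) : ℝ) := by
    have := s_pos hk3 A
    exact_mod_cast this
  have hmsA : (m : ℝ) ≤ ((20 * k0 * 2 ^ A : ℕ) : ℝ) := by exact_mod_cast hA3
  apply hM p hp N A hN hb1 (NW_anti' hNW hA1)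
  · have h1 : ((20 * k0 * 2 ^ A : ℕ) : ℝ) ≤ 8 * X := by
      have h2 : ((20 * k0 * 2 ^ A : ℕ) : ℝ) ≤ 4 * n0 := by
        have : 20 * k0 * 2 ^ A ≤ 4 * n0 := hA1.trans (by omega)
        exact_mod_cast this
      linarith
    calc ((20 * k0 * 2 ^ A : ℕ) : ℝ) ^ (91 / 48 : ℝ) ≤ (8 * X) ^ (91 / 48 : ℝ) := Real.rpow_le_rpow hsA.le h1 (by norm_num)
      _ = 8 ^ (91 / 48 : ℝ) * N := by rw [Real.mul_rpow (by norm_num) (by linarith), hXN]
      _ ≤ 8 ^ (2 : ℝ) * N := by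
          gcongr
          · norm_num
          · norm_num
      _ = 64 * N := by norm_num
  · have hC0 : 0 ≤ CG ^ (91 / 48 : ℝ) := by positivity
    rcases hcase with h | h
    · have h1 : (N : ℝ) ≤ ((20 * k0 * 2 ^ A : ℕ) : ℝ) ^ (91 / 48 : ℝ) := by
        rw [← hXN]
        apply Real.rpow_le_rpow (by linarith) _ (by norm_num)
        rw [h] at hmsA
        linarith
      have h2 : (N : ℝ) / ((20 * k0 * 2 ^ A : ℕ) : ℝ) ^ (91 / 48 : ℝ) ≤ 1 := by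
        rw [div_le_one (by positivity)]
        exact h1
      have h3 : 0 ≤ CG ^ (91 / 48 : ℝ) * (N * τ) := by positivity
      nlinarith
    · have h3 := one_le_rp hCG.le hm0 ht h
      have h4 : (m : ℝ) ^ (91 / 48 : ℝ) ≤ ((20 * k0 * 2 ^ A : ℕ) : ℝ) ^ (91 / 48 : ℝ) := Real.rpow_le_rpow hm0 hmsA (by norm_num)
      have h5 : 1 ≤ CG ^ (91 / 48 : ℝ) * ((20 * k0 * 2 ^ A : ℕ) : ℝ) ^ (91 / 48 : ℝ) * τ := by
        refine h3.trans ?_
        gcongr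
      have h6 : (N : ℝ) / ((20 * k0 * 2 ^ A : ℕ) : ℝ) ^ (91 / 48 : ℝ) ≤ CG ^ (91 / 48 : ℝ) * (N * τ) := by
        rw [div_le_iff₀ (by positivity)]
        calc (N : ℝ) = N * 1 := (mul_one _).symm
          _ ≤ N * (CG ^ (91 / 48 : ℝ) * ((20 * k0 * 2 ^ A : ℕ) : ℝ) ^ (91 / 48 : ℝ) * τ) := by gcongr
          _ = _ := by ring
      nlinarith

end Q16.FE
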