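import Pool.Agent.Q78.FE.Stm

set_option autoImplicit false

/-! Project FE (helper78): real analysis for the jobs FE-UPH and FE-UPD, and sums of probabilities. -/

namespace Q16.FE

open Finset H974 Pool.Agent.H160R2.CV Pool.Agent.H160R2.CV.Quad H362P Q78.FE

/-- powers of the size against powers of the scale -/
theorem kpow {s k B β : ℝ} (hs : 0 < s) (hk : 0 < k) (hB : 0 < B) (h : s ^ (91 / 48 : ℝ) ≤ B * k) (hβ : 0 ≤ β) :
    k ^ (-β) ≤ B ^ β * s ^ (-(91 / 48 * β)) := by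
  have h1 : s ^ (91 / 48 * β) ≤ B ^ β * k ^ β := by
    rw [Real.rpow_mul hs.le, ← Real.mul_rpow hB.le hk.le]
    exact Real.rpow_le_rpow (by positivity) h hβ
  rw [Real.rpow_neg hk.le, Real.rpow_neg hs.le]
  have h2 : 0 < k ^ β := by positivity
  have h3 : 0 < s ^ (91 / 48 * β) := by positivity
  rw [inv_eq_one_div, div_le_iff₀ h2, ← div_eq_mul_inv, div_mul_eq_mul_div, le_div_iff₀ h3]
  linarith

theorem le_of_two {x Λ T k G₁ G₂ : ℝ} (hG₁ : 0 ≤ G₁) (hG₂ : 0 ≤ G₂) (h : x ^ 2 ≤ 4 * Λ * T ∨ x ≤ 4 * T / k)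
    (h1 : 4 * Λ * T ≤ G₁ ^ 2) (h2 : 4 * T / k ≤ G₂) : x ≤ G₁ + G₂ := by
  rcases h with h | h
  · have := abs_le_of_sq_le_sq (h.trans h1) hG₁
    linarith [le_abs_self x]
  · linarith

/-- two steps: first the sequence, then its differences -/
theorem two_step (hR1 : S_R1) (hR2 : S_R2) {α β B Λ T₀ c : ℝ} (hα : 0 ≤ α) (hβ : 0 ≤ β) (hαβ : 91 / 48 * β + α = 5 / 48)
    (hB : 1 ≤ B) (hΛ : 0 < Λ) (hT : 0 < T₀) (hc : 0 < c) : ∃ C : ℝ, 0 < C ∧ ∀ (s ω : ℝ) (h : ℕ → ℝ), 0 < s → 0 ≤ ω →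
    (∀ j, 0 ≤ h j) → (∀ j, |h (j + 1) - h j| ≤ Λ * s ^ (-(187 / 48) : ℝ)) →
    (∀ j, |h (j + 2) - 2 * h (j + 1) + h j| ≤ Λ * s ^ (-(139 / 24) : ℝ)) →
    (∀ k : ℕ, 1 ≤ k → s ^ (91 / 48 : ℝ) ≤ B * k → (∑ j ∈ (range (k + 1)).filter (fun j => k ≤ 2 * j), h j) ≤
      T₀ * (s ^ (-α) * (k : ℝ) ^ (-β)) * Real.exp (-(c * (k * ω)))) → ∀ k : ℕ, 1 ≤ k → s ^ (91 / 48 : ℝ) ≤ B * k →
    h k ≤ C * (s ^ (-(187 / 96 + α / 2)) * (k : ℝ) ^ (-(β / 2))) * Real.exp (-(c / 2 * (k * ω))) ∧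
    |h (k + 1) - h k| ≤ C * (s ^ (-(743 / 192 + α / 4)) * (k : ℝ) ^ (-(β / 4))) * Real.exp (-(c / 4 * (k * ω))) := by
  have hB0 : 0 < B := by linarith
  set C₁ : ℝ := 2 * √(Λ * T₀) + 4 * T₀ * B ^ (β / 2 + 1) with hC₁
  have hC₁0 : 0 < C₁ := by
    have : 0 < 4 * T₀ * B ^ (β / 2 + 1) := by positivity
    have h2 : 0 ≤ 2 * √(Λ * T₀) := by positivity
    linarith
  set C₂ : ℝ := 2 * √(Λ * C₁) + 4 * C₁ * B ^ (β / 4 + 1) with hC₂
  have hC₂0 : 0 < C₂ := by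
    have : 0 < 4 * C₁ * B ^ (β / 4 + 1) := by positivity
    have h2 : 0 ≤ 2 * √(Λ * C₁) := by positivity
    linarith
  refine ⟨C₁ + C₂, by positivity, ?_⟩
  intro s ω h hs hω h0 hΔ hΔ2 hsum
  -- the first step
  have key : ∀ k : ℕ, 1 ≤ k → s ^ (91 / 48 : ℝ) ≤ B * k →
      h k ≤ C₁ * (s ^ (-(187 / 96 + α / 2)) * (k : ℝ) ^ (-(β / 2))) * Real.exp (-(c / 2 * (k * ω))) := by
    intro k hk hsk
    have hk0 : (0 : ℝ) < k := by exact_mod_cast hk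
    have hkω : 0 ≤ (k : ℝ) * ω := by positivity
    have h1 := hR1 h _ _ k hk h0 (by positivity) hΔ (hsum k hk hsk)
    set E := Real.exp (-(c / 2 * (k * ω))) with hE
    have hE0 : 0 < E := Real.exp_pos _
    have hEE : Real.exp (-(c * (k * ω))) = E ^ 2 := by
      rw [hE, ← Real.exp_nat_mul]
      congr 1
      push_cast
      ring
    have hE1 : E ^ 2 ≤ E := by
      have : E ≤ 1 := by
        rw [hE, Real.exp_le_one_iff]
        have : 0 ≤ c / 2 * (k * ω) := by positivity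
        linarith
      nlinarith
    have hP : h k ≤ 2 * √(Λ * T₀) * (s ^ (-(187 / 96 + α / 2)) * (k : ℝ) ^ (-(β / 2))) * E +
        4 * T₀ * B ^ (β / 2 + 1) * (s ^ (-(187 / 96 + α / 2)) * (k : ℝ) ^ (-(β / 2))) * E := by
      apply le_of_two (by positivity) (by positivity) h1
      · apply le_of_eq
        rw [hEE]
        have e1 : (s ^ (-(187 / 96 + α / 2))) ^ 2 = s ^ (-(187 / 48) : ℝ) * s ^ (-α) := by
          rw [← Real.rpow_natCast, ← Real.rpow_mul hs.le, ← Real.rpow_add hs]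
          congr 1
          push_cast
          ring
        have e2 : ((k : ℝ) ^ (-(β / 2))) ^ 2 = (k : ℝ) ^ (-β) := by
          rw [← Real.rpow_natCast, ← Real.rpow_mul hk0.le]
          congr 1
          push_cast
          ring
        have e3 : √(Λ * T₀) ^ 2 = Λ * T₀ := Real.sq_sqrt (by positivity)
        calc 4 * (Λ * s ^ (-(187 / 48) : ℝ)) * (T₀ * (s ^ (-α) * (k : ℝ) ^ (-β)) * E ^ 2) =
              4 * (Λ * T₀) * ((s ^ (-(187 / 48) : ℝ) * s ^ (-α)) * (k : ℝ) ^ (-β)) * E ^ 2 := by ring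
          _ = 4 * √(Λ * T₀) ^ 2 * ((s ^ (-(187 / 96 + α / 2))) ^ 2 * ((k : ℝ) ^ (-(β / 2))) ^ 2) * E ^ 2 := by rw [e1, e2, e3]
          _ = _ := by ring
      · rw [hEE]
        have e1 := kpow hs hk0 hB0 hsk (by positivity : 0 ≤ β / 2 + 1)
        have e2 : (k : ℝ) ^ (-β) / k = (k : ℝ) ^ (-(β / 2)) * (k : ℝ) ^ (-(β / 2 + 1)) := by
          rw [← Real.rpow_add hk0, div_eq_mul_inv, ← Real.rpow_neg_one (k : ℝ), ← Real.rpow_add hk0]
          congr 1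
          ring
        have e3 : s ^ (-α) * s ^ (-(91 / 48 * (β / 2 + 1))) = s ^ (-(187 / 96 + α / 2)) := by
          rw [← Real.rpow_add hs]
          congr 1
          linarith
        calc 4 * (T₀ * (s ^ (-α) * (k : ℝ) ^ (-β)) * E ^ 2) / k =
              4 * T₀ * s ^ (-α) * ((k : ℝ) ^ (-β) / k) * E ^ 2 := by ring
          _ = 4 * T₀ * s ^ (-α) * ((k : ℝ) ^ (-(β / 2)) * (k : ℝ) ^ (-(β / 2 + 1))) * E ^ 2 := by rw [e2]
          _ ≤ 4 * T₀ * s ^ (-α) * ((k : ℝ) ^ (-(β / 2)) * (B ^ (β / 2 + 1) * s ^ (-(91 / 48 * (β / 2 + 1))))) * E := by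
              gcongr
          _ = 4 * T₀ * B ^ (β / 2 + 1) * ((s ^ (-α) * s ^ (-(91 / 48 * (β / 2 + 1)))) * (k : ℝ) ^ (-(β / 2))) * E := by ring
          _ = _ := by rw [e3]
    refine hP.trans (le_of_eq ?_)
    rw [hC₁]
    ring
  intro k hk hsk
  have hk0 : (0 : ℝ) < k := by exact_mod_cast hk
  have hkω : 0 ≤ (k : ℝ) * ω := by positivity
  constructor
  · refine (key k hk hsk).trans ?_
    gcongr
    linarith
  set S := C₁ * (s ^ (-(187 / 96 + α / 2)) * (k : ℝ) ^ (-(β / 2))) * Real.exp (-(c / 2 * (k * ω))) with hS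
  have hS0 : 0 ≤ S := by positivity
  have hbd : ∀ j : ℕ, k ≤ j → j ≤ 2 * k + 1 → 0 ≤ h j ∧ h j ≤ S := by
    intro j hj _
    refine ⟨h0 j, ?_⟩
    have hkj : (k : ℝ) ≤ j := by exact_mod_cast hj
    have h1 := key j (hk.trans hj) (hsk.trans (by gcongr))
    refine h1.trans ?_
    rw [hS]
    have h2 : (j : ℝ) ^ (-(β / 2)) ≤ (k : ℝ) ^ (-(β / 2)) :=
      Real.rpow_le_rpow_of_nonpos hk0 hkj (by linarith)
    have h3 : Real.exp (-(c / 2 * (j * ω))) ≤ Real.exp (-(c / 2 * (k * ω))) := by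
      apply Real.exp_le_exp.2
      have : (k : ℝ) * ω ≤ j * ω := mul_le_mul_of_nonneg_right hkj hω
      have : c / 2 * (k * ω) ≤ c / 2 * (j * ω) := mul_le_mul_of_nonneg_left this (by linarith)
      linarith
    gcongr
  have h1 := hR2 h (Λ * s ^ (-(139 / 24) : ℝ)) S k hk (by positivity) hbd hΔ2
  have h1' : |h (k + 1) - h k| ^ 2 ≤ 4 * (Λ * s ^ (-(139 / 24) : ℝ)) * S ∨ |h (k + 1) - h k| ≤ 4 * S / k := by
    rcases h1 with h1 | h1
    · left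
      rwa [sq_abs]
    · right
      refine h1.trans ?_
      gcongr
      norm_num
  set E := Real.exp (-(c / 4 * (k * ω))) with hE
  have hE0 : 0 < E := Real.exp_pos _
  have hEE : Real.exp (-(c / 2 * (k * ω))) = E ^ 2 := by
    rw [hE, ← Real.exp_nat_mul]
    congr 1
    push_cast
    ring
  have hE1 : E ^ 2 ≤ E := by
    have : E ≤ 1 := by
      rw [hE, Real.exp_le_one_iff]
      have : 0 ≤ c / 4 * (k * ω) := by positivity
      linarith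
    nlinarith
  have hP : |h (k + 1) - h k| ≤ 2 * √(Λ * C₁) * (s ^ (-(743 / 192 + α / 4)) * (k : ℝ) ^ (-(β / 4))) * E +
      4 * C₁ * B ^ (β / 4 + 1) * (s ^ (-(743 / 192 + α / 4)) * (k : ℝ) ^ (-(β / 4))) * E := by
    apply le_of_two (by positivity) (by positivity) h1'
    · apply le_of_eq
      rw [hS, hEE]
      have e1 : (s ^ (-(743 / 192 + α / 4))) ^ 2 = s ^ (-(139 / 24) : ℝ) * s ^ (-(187 / 96 + α / 2)) := by
        rw [← Real.rpow_natCast, ← Real.rpow_mul hs.le, ← Real.rpow_add hs]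
        congr 1
        push_cast
        ring
      have e2 : ((k : ℝ) ^ (-(β / 4))) ^ 2 = (k : ℝ) ^ (-(β / 2)) := by
        rw [← Real.rpow_natCast, ← Real.rpow_mul hk0.le]
        congr 1
        push_cast
        ring
      have e3 : √(Λ * C₁) ^ 2 = Λ * C₁ := Real.sq_sqrt (by positivity)
      calc 4 * (Λ * s ^ (-(139 / 24) : ℝ)) * (C₁ * (s ^ (-(187 / 96 + α / 2)) * (k : ℝ) ^ (-(β / 2))) * E ^ 2) =
            4 * (Λ * C₁) * ((s ^ (-(139 / 24) : ℝ) * s ^ (-(187 / 96 + α / 2))) * (k : ℝ) ^ (-(β / 2))) * E ^ 2 := by ring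
        _ = 4 * √(Λ * C₁) ^ 2 * ((s ^ (-(743 / 192 + α / 4))) ^ 2 * ((k : ℝ) ^ (-(β / 4))) ^ 2) * E ^ 2 := by rw [e1, e2, e3]
        _ = _ := by ring
    · rw [hS, hEE]
      have e1 := kpow hs hk0 hB0 hsk (by positivity : 0 ≤ β / 4 + 1)
      have e2 : (k : ℝ) ^ (-(β / 2)) / k = (k : ℝ) ^ (-(β / 4)) * (k : ℝ) ^ (-(β / 4 + 1)) := by
        rw [← Real.rpow_add hk0, div_eq_mul_inv, ← Real.rpow_neg_one (k : ℝ), ← Real.rpow_add hk0]
        congr 1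
        ring
      have e3 : s ^ (-(187 / 96 + α / 2)) * s ^ (-(91 / 48 * (β / 4 + 1))) = s ^ (-(743 / 192 + α / 4)) := by
        rw [← Real.rpow_add hs]
        congr 1
        linarith
      calc 4 * (C₁ * (s ^ (-(187 / 96 + α / 2)) * (k : ℝ) ^ (-(β / 2))) * E ^ 2) / k =
            4 * C₁ * s ^ (-(187 / 96 + α / 2)) * ((k : ℝ) ^ (-(β / 2)) / k) * E ^ 2 := by ring
        _ = 4 * C₁ * s ^ (-(187 / 96 + α / 2)) * ((k : ℝ) ^ (-(β / 4)) * (k : ℝ) ^ (-(β / 4 + 1))) * E ^ 2 := by rw [e2]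
        _ ≤ 4 * C₁ * s ^ (-(187 / 96 + α / 2)) * ((k : ℝ) ^ (-(β / 4)) * (B ^ (β / 4 + 1) * s ^ (-(91 / 48 * (β / 4 + 1))))) * E := by
            gcongr
        _ = 4 * C₁ * B ^ (β / 4 + 1) * ((s ^ (-(187 / 96 + α / 2)) * s ^ (-(91 / 48 * (β / 4 + 1)))) * (k : ℝ) ^ (-(β / 4))) * E := by
            ring
        _ = _ := by rw [e3]
  refine hP.trans ?_
  have e : 2 * √(Λ * C₁) * (s ^ (-(743 / 192 + α / 4)) * (k : ℝ) ^ (-(β / 4))) * E +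
      4 * C₁ * B ^ (β / 4 + 1) * (s ^ (-(743 / 192 + α / 4)) * (k : ℝ) ^ (-(β / 4))) * E =
      C₂ * (s ^ (-(743 / 192 + α / 4)) * (k : ℝ) ^ (-(β / 4))) * E := by rw [hC₂]; ring
  rw [e]
  gcongr
  linarith

/-- sums of the probabilities of disjoint events -/
theorem sumQ {E : Type*} [DecidableEq E] {p : E → ℝ} (hp : Ok p) (S : Finset E) (X : Finset E → ℕ) (Q : Finset E → Prop)
    (J : Finset ℕ) (y : ℝ) (hJ : ∀ j ∈ J, y ≤ j) :
    ∑ j ∈ J, Pr p S (fun F => X F = j ∧ Q F) ≤ Pr p S (fun F => y ≤ (X F : ℝ) ∧ Q F) := by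
  unfold Pr
  rw [← Ex_sum]
  apply Ex_mono hp
  intro F _
  by_cases hQ : Q F
  · by_cases hX : X F ∈ J
    · rw [Finset.sum_eq_single (X F)]
      · exact ind_mono fun h => ⟨hJ _ hX, h.2⟩
      · intro j _ hj
        exact ind_not_of fun h => hj h.1.symm
      · intro h
        exact absurd hX h
    · rw [Finset.sum_eq_zero]
      · exact ind_nonneg _
      · intro j hj
        apply ind_not_of
        rintro ⟨h1, _⟩
        exact hX (h1 ▸ hj)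
  · rw [Finset.sum_eq_zero]
    · exact ind_nonneg _
    · intro j _
      exact ind_not_of fun h => hQ h.2

end Q16.FE

namespace Q16.FE

open Finset H974 Pool.Agent.H160R2.CV Pool.Agent.H160R2.CV.Quad H362P Q78.FE

theorem ok_const {p : ℝ} (h0 : 0 ≤ p) (h1 : p ≤ 1) : Ok (fun _ : Edg => p) := fun _ => ⟨h0, h1⟩

/-- the tail sum from F-TL -/
theorem tl_sum {c₂ C₂ : ℝ} (hc₂ : 0 < c₂) (hC₂ : 0 < C₂) (hTL : ∀ (p : ℝ) (n : ℕ), 0 ≤ p → p ≤ 1 / 2 →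
    ∀ y : ℝ, 1 ≤ y → Pr (fun _ => p) (boxE n) (fun F => y ≤ (Sz n (0, 0) F : ℝ)) ≤
    C₂ * y ^ (-(5 / 91) : ℝ) * Real.exp (-(c₂ * (y * (1 / 2 - p) ^ (91 / 36 : ℝ))))) {p : ℝ} {n k : ℕ} (hp0 : 0 ≤ p)
    (hp : p ≤ 1 / 2) (hk : 1 ≤ k) (Q : Finset Edg → Prop) :
    ∑ j ∈ (range (k + 1)).filter (fun j => k ≤ 2 * j), Pr (fun _ => p) (boxE n) (fun F => Sz n (0, 0) F = j ∧ Q F) ≤
      2 * C₂ * (k : ℝ) ^ (-(5 / 91) : ℝ) * Real.exp (-(c₂ / 2 * (k * (1 / 2 - p) ^ (91 / 36 : ℝ)))) := by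
  have hok := ok_const hp0 (by linarith : p ≤ 1)
  have hk0 : (0 : ℝ) < k := by exact_mod_cast hk
  set y : ℝ := max 1 (k / 2) with hy
  have hy1 : 1 ≤ y := le_max_left _ _
  have hy2 : (k : ℝ) / 2 ≤ y := le_max_right _ _
  have hτ : 0 ≤ (1 / 2 - p) ^ (91 / 36 : ℝ) := Real.rpow_nonneg (by linarith) _
  refine (sumQ hok (boxE n) (Sz n (0, 0)) Q _ y ?_).trans ?_
  · intro j hj
    have h1 := (Finset.mem_filter.1 hj).2
    have h2 : 1 ≤ j := by omega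
    have h3 : (1 : ℝ) ≤ j := by exact_mod_cast h2
    have h4 : (k : ℝ) ≤ 2 * j := by exact_mod_cast h1
    rw [hy]
    exact max_le h3 (by linarith)
  · refine (Pr_mono hok (B := fun F => y ≤ (Sz n (0, 0) F : ℝ)) fun F _ h => h.1).trans ?_
    refine (hTL p n hp0 hp y hy1).trans ?_
    have h1 : y ^ (-(5 / 91) : ℝ) ≤ 2 * (k : ℝ) ^ (-(5 / 91) : ℝ) := by
      calc y ^ (-(5 / 91) : ℝ) ≤ (k / 2 : ℝ) ^ (-(5 / 91) : ℝ) :=
            Real.rpow_le_rpow_of_nonpos (by positivity) hy2 (by norm_num)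
        _ = (k : ℝ) ^ (-(5 / 91) : ℝ) * (2 : ℝ) ^ (5 / 91 : ℝ) := by
            rw [Real.div_rpow hk0.le (by norm_num), Real.rpow_neg (by norm_num : (0 : ℝ) ≤ 2), div_eq_mul_inv, inv_inv]
        _ ≤ (k : ℝ) ^ (-(5 / 91) : ℝ) * (2 : ℝ) ^ (1 : ℝ) := by
            gcongr
            · norm_num
            · norm_num
        _ = 2 * (k : ℝ) ^ (-(5 / 91) : ℝ) := by rw [Real.rpow_one]; ring
    have h2 : Real.exp (-(c₂ * (y * (1 / 2 - p) ^ (91 / 36 : ℝ)))) ≤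
        Real.exp (-(c₂ / 2 * (k * (1 / 2 - p) ^ (91 / 36 : ℝ)))) := by
      apply Real.exp_le_exp.2
      have h3 : (k : ℝ) / 2 * (1 / 2 - p) ^ (91 / 36 : ℝ) ≤ y * (1 / 2 - p) ^ (91 / 36 : ℝ) :=
        mul_le_mul_of_nonneg_right hy2 hτ
      have h4 := mul_le_mul_of_nonneg_left h3 hc₂.le
      linarith
    calc C₂ * y ^ (-(5 / 91) : ℝ) * Real.exp (-(c₂ * (y * (1 / 2 - p) ^ (91 / 36 : ℝ)))) ≤
          C₂ * (2 * (k : ℝ) ^ (-(5 / 91) : ℝ)) * Real.exp (-(c₂ / 2 * (k * (1 / 2 - p) ^ (91 / 36 : ℝ)))) := by gcongr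
      _ = _ := by ring

/-- reaching the boundary of a large box implies reaching the boundary of a small box -/
theorem fl_anti {R R' : ℕ} (h : R ≤ R') {F : Finset Edg} (hF : ∃ i, fl R' (0, 0) i F) : ∃ i, fl R (0, 0) i F := by
  obtain ⟨i, v, hi, hr⟩ := hF
  have hv : v.1 ≤ -(R : ℤ) ∨ (R : ℤ) ≤ v.1 ∨ v.2 ≤ -(R : ℤ) ∨ (R : ℤ) ≤ v.2 := by
    fin_cases i <;> simp at hi <;> omega
  obtain ⟨w, hw, hwb, hwr⟩ := first_exit (a := -(R : ℤ)) (b := R) (c := -(R : ℤ)) (d := R) (u := (0, 0))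
    ⟨⟨by simp, by simp⟩, ⟨by simp, by simp⟩⟩ hr hv
  have hwr' : Reach (↑F ∩ ↑(boxE R)) (0, 0) w := by
    apply hwr.mono
    rintro e ⟨⟨h1, _⟩, h2⟩
    exact ⟨h1, h2⟩
  rcases hwb with h1 | h1 | h1 | h1
  · exact ⟨1, w, h1, hwr'⟩
  · exact ⟨0, w, h1, hwr'⟩
  · exact ⟨3, w, h1, hwr'⟩
  · exact ⟨2, w, h1, hwr'⟩

theorem HH_sub (p : ℝ) (n s k : ℕ) : HH p n s k - HH p n (2 * s) k =
    Pr (fun _ => p) (boxE n) (fun F => Sz n (0, 0) F = k ∧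
      ((∃ i, fl (8 * s) (0, 0) i F) ∧ ¬ ∃ i, fl (8 * (2 * s)) (0, 0) i F)) := by
  unfold HH Pr
  rw [← Ex_sub]
  apply Ex_congr
  intro F _
  by_cases h1 : Sz n (0, 0) F = k
  · by_cases h2 : ∃ i, fl (8 * (2 * s)) (0, 0) i F
    · have h3 := fl_anti (by omega : 8 * s ≤ 8 * (2 * s)) h2
      rw [ind_of ⟨h1, h3⟩, ind_of ⟨h1, h2⟩, ind_not_of (fun h => h.2.2 h2)]
      norm_num
    · by_cases h3 : ∃ i, fl (8 * s) (0, 0) i F
      · rw [ind_of ⟨h1, h3⟩, ind_not_of (fun h => h2 h.2), ind_of ⟨h1, h3, h2⟩]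
        norm_num
      · rw [ind_not_of (fun h => h3 h.2), ind_not_of (fun h => h2 h.2), ind_not_of (fun h => h3 h.2.1)]
        norm_num
  · rw [ind_not_of (fun h => h1 h.1), ind_not_of (fun h => h1 h.1), ind_not_of (fun h => h1 h.1)]
    norm_num

end Q16.FE
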