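import Pool.Agent.Q16.FE.UPB

set_option autoImplicit false

/-! Project FE (helper78), job FE-UPD. -/

namespace Q16.FE

open Finset H974 Pool.Agent.H160R2.CV Pool.Agent.H160R2.CV.Quad H362P Q78.FE

theorem NW_anti {κ a p : ℝ} {N M : ℕ} (h : NW κ a p N) (hM : M ≤ N) : NW κ a p M :=
  ⟨h.lo, h.hi, h.win.anti hM, fun k h1 h2 => h.arm k h1 (h2.trans hM)⟩

theorem two_pow_le : (2 : ℝ) ^ (91 / 48 : ℝ) ≤ 4 := by
  calc (2 : ℝ) ^ (91 / 48 : ℝ) ≤ (2 : ℝ) ^ (2 : ℝ) := Real.rpow_le_rpow_of_exponent_le (by norm_num) (by norm_num)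
    _ = 4 := by norm_num

theorem le_sqrt_mul {x a b : ℝ} (hx : 0 ≤ x) (ha : x ≤ a) (hb : x ≤ b) {g : ℝ} (hg : 0 ≤ g) (h : a * b ≤ g ^ 2) : x ≤ g := by
  have h1 : x ^ 2 ≤ g ^ 2 := by
    calc x ^ 2 = x * x := sq x
      _ ≤ a * b := mul_le_mul ha hb hx (hx.trans ha)
      _ ≤ g ^ 2 := h
  exact (abs_le_of_sq_le_sq' h1 hg).2

theorem t_UPD (hR1 : S_R1) (hR2 : S_R2) (hTL : S_TL) (hTAIL : S_TAIL) (hD : S_DIFF) : S_UPD := by
  intro k0 hk0 κ a B hκ ha hB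
  obtain ⟨Λ, hΛ, hd⟩ := hD k0 hk0 κ a hκ ha
  obtain ⟨c₂, C₂, hc₂, hC₂, htl⟩ := hTL
  obtain ⟨c₃, C₃, hc₃, hC₃, htail⟩ := hTAIL
  set c : ℝ := min (c₂ / 4) (c₃ / 16) with hc
  have hc0 : 0 < c := lt_min (by positivity) (by positivity)
  set C₄ : ℝ := C₃ + 16 * Λ * Real.exp c₃ with hC₄
  have hC₄0 : 0 < C₄ := by positivity
  set T₀ : ℝ := √(2 * C₂ * C₄) with hT₀
  have hT₀0 : 0 < T₀ := Real.sqrt_pos.2 (by positivity)
  obtain ⟨C, hC, hts⟩ := two_step hR1 hR2 (α := 5 / 96) (β := 5 / 182) (B := B) (Λ := 2 * Λ) (T₀ := T₀) (c := c) (by norm_num)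
    (by norm_num) (by norm_num) hB (by positivity) hT₀0 hc0
  refine ⟨c / 4, C, by positivity, hC, ?_⟩
  intro p A s n k hs hNW2 hn hk hsk
  have hNW : NW κ a p s := NW_anti hNW2 (by omega)
  have hs2 : 2 * s = 20 * k0 * 2 ^ (A + 1) := by rw [hs, pow_succ]; ring
  have hn10 : 10 * s ≤ n := by omega
  have hn20 : 10 * (2 * s) ≤ n := by omega
  have hp := hNW.hi
  have hp0 : 0 ≤ p := by linarith [hNW.lo]
  have hs0 : 0 < s := by
    have := hk0.1
    rw [hs]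
    positivity
  have hs1 : (0 : ℝ) < s := by exact_mod_cast hs0
  have hτ : 0 ≤ (1 / 2 - p) ^ (91 / 36 : ℝ) := Real.rpow_nonneg (by linarith) _
  set τ := (1 / 2 - p) ^ (91 / 36 : ℝ) with hτd
  have hok := ok_const hp0 (by linarith : p ≤ 1)
  set M : ℝ := (s : ℝ) ^ (91 / 48 : ℝ) with hM
  have hM0 : 0 < M := by positivity
  set h : ℕ → ℝ := fun j => HH p n s j - HH p n (2 * s) j with hh
  have h0 : ∀ j, 0 ≤ h j := fun j => by
    simp only [hh]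
    rw [HH_sub]
    exact Pr_nonneg hok _ _
  have hHH0 : ∀ (s' j : ℕ), 0 ≤ HH p n s' j := fun s' j => Pr_nonneg hok _ _
  have hmono : ∀ {x : ℝ}, 0 ≤ x → ((2 * s : ℕ) : ℝ) ^ (-x) ≤ (s : ℝ) ^ (-x) := by
    intro x hx
    apply Real.rpow_le_rpow_of_nonpos hs1 _ (by linarith)
    push_cast
    linarith
  have hd1 : ∀ j, |h (j + 1) - h j| ≤ 2 * Λ * (s : ℝ) ^ (-(187 / 48) : ℝ) := by
    intro j
    have a1 := (hd p A s n j hs hNW hn10).2.1
    have a2 := (hd p (A + 1) (2 * s) n j hs2 hNW2 hn20).2.1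
    have a3 := hmono (by norm_num : (0 : ℝ) ≤ 187 / 48)
    have a4 : Λ * ((2 * s : ℕ) : ℝ) ^ (-(187 / 48) : ℝ) ≤ Λ * (s : ℝ) ^ (-(187 / 48) : ℝ) := by gcongr
    simp only [hh]
    rw [abs_le] at a1 a2 ⊢
    constructor <;> linarith [a1.1, a1.2, a2.1, a2.2]
  have hd2 : ∀ j, |h (j + 2) - 2 * h (j + 1) + h j| ≤ 2 * Λ * (s : ℝ) ^ (-(139 / 24) : ℝ) := by
    intro j
    have a1 := (hd p A s n j hs hNW hn10).2.2
    have a2 := (hd p (A + 1) (2 * s) n j hs2 hNW2 hn20).2.2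
    have a3 := hmono (by norm_num : (0 : ℝ) ≤ 139 / 24)
    have a4 : Λ * ((2 * s : ℕ) : ℝ) ^ (-(139 / 24) : ℝ) ≤ Λ * (s : ℝ) ^ (-(139 / 24) : ℝ) := by gcongr
    simp only [hh]
    rw [abs_le] at a1 a2 ⊢
    constructor <;> linarith [a1.1, a1.2, a2.1, a2.2]
  have hsum : ∀ k : ℕ, 1 ≤ k → (s : ℝ) ^ (91 / 48 : ℝ) ≤ B * k → (∑ j ∈ (range (k + 1)).filter (fun j => k ≤ 2 * j), h j) ≤
      T₀ * ((s : ℝ) ^ (-(5 / 96) : ℝ) * (k : ℝ) ^ (-(5 / 182) : ℝ)) * Real.exp (-(c * (k * (1 / M + τ)))) := by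
    intro k hk _
    have hk0 : (0 : ℝ) < k := by exact_mod_cast hk
    have hkτ : 0 ≤ (k : ℝ) * τ := by positivity
    have hsum0 : 0 ≤ ∑ j ∈ (range (k + 1)).filter (fun j => k ≤ 2 * j), h j := Finset.sum_nonneg fun j _ => h0 j
    have hsumE : ∑ j ∈ (range (k + 1)).filter (fun j => k ≤ 2 * j), h j =
        ∑ j ∈ (range (k + 1)).filter (fun j => k ≤ 2 * j), Pr (fun _ => p) (boxE n) (fun F => Sz n (0, 0) F = j ∧
          ((∃ i, fl (8 * s) (0, 0) i F) ∧ ¬ ∃ i, fl (8 * (2 * s)) (0, 0) i F)) :=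
      Finset.sum_congr rfl fun j _ => HH_sub p n s j
    have b1 : ∑ j ∈ (range (k + 1)).filter (fun j => k ≤ 2 * j), h j ≤
        2 * C₂ * (k : ℝ) ^ (-(5 / 91) : ℝ) * Real.exp (-(c₂ / 2 * (k * τ))) := by
      rw [hsumE]
      exact tl_sum hc₂ hC₂ htl (n := n) hp0 hp hk _
    have b2 : ∑ j ∈ (range (k + 1)).filter (fun j => k ≤ 2 * j), h j ≤
        C₄ * (s : ℝ) ^ (-(5 / 48) : ℝ) * Real.exp (-(c₃ / 8 * (k / M))) := by
      rcases le_or_gt (((2 * s : ℕ) : ℝ) ^ (91 / 48 : ℝ)) ((k : ℝ) / 2) with hbig | hsmall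
      · rw [hsumE]
        refine (sumQ hok (boxE n) (Sz n (0, 0)) _ _ ((k : ℝ) / 2) ?_).trans ?_
        · intro j hj
          have h1 := (Finset.mem_filter.1 hj).2
          have h4 : (k : ℝ) ≤ 2 * j := by exact_mod_cast h1
          linarith
        · refine (Pr_mono hok (B := fun F => (k : ℝ) / 2 ≤ (Sz n (0, 0) F : ℝ) ∧ ¬ ∃ i, fl (8 * (2 * s)) (0, 0) i F)
            fun F _ h => ⟨h.1, h.2.2⟩).trans ?_
          refine (htail p (2 * s) n hp0 hp (by omega) (by omega) _ hbig).trans ?_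
          have a1 := hmono (by norm_num : (0 : ℝ) ≤ 5 / 48)
          have a2 : Real.exp (-(c₃ * ((k : ℝ) / 2 / ((2 * s : ℕ) : ℝ) ^ (91 / 48 : ℝ)))) ≤ Real.exp (-(c₃ / 8 * (k / M))) := by
            apply Real.exp_le_exp.2
            have a3 : ((2 * s : ℕ) : ℝ) ^ (91 / 48 : ℝ) ≤ 4 * M := by
              push_cast
              rw [Real.mul_rpow (by norm_num) hs1.le]
              exact mul_le_mul_of_nonneg_right two_pow_le hM0.le
            have a4 : (k : ℝ) / 2 / (4 * M) ≤ (k : ℝ) / 2 / ((2 * s : ℕ) : ℝ) ^ (91 / 48 : ℝ) := by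
              have : (0 : ℝ) < ((2 * s : ℕ) : ℝ) ^ (91 / 48 : ℝ) := by positivity
              gcongr
            have a5 := mul_le_mul_of_nonneg_left a4 hc₃.le
            have a6 : c₃ * ((k : ℝ) / 2 / (4 * M)) = c₃ / 8 * (k / M) := by
              field_simp
              norm_num
            linarith
          have a7 : C₃ ≤ C₄ := by
            rw [hC₄]
            have : 0 ≤ 16 * Λ * Real.exp c₃ := by positivity
            linarith
          calc C₃ * ((2 * s : ℕ) : ℝ) ^ (-(5 / 48) : ℝ) * Real.exp (-(c₃ * ((k : ℝ) / 2 / ((2 * s : ℕ) : ℝ) ^ (91 / 48 : ℝ)))) ≤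
                C₄ * (s : ℝ) ^ (-(5 / 48) : ℝ) * Real.exp (-(c₃ / 8 * (k / M))) := by gcongr
            _ = _ := rfl
      · have a1 : (k : ℝ) ≤ 8 * M := by
          have a3 : ((2 * s : ℕ) : ℝ) ^ (91 / 48 : ℝ) ≤ 4 * M := by
            push_cast
            rw [Real.mul_rpow (by norm_num) hs1.le]
            exact mul_le_mul_of_nonneg_right two_pow_le hM0.le
          linarith
        have a2 : ∑ j ∈ (range (k + 1)).filter (fun j => k ≤ 2 * j), h j ≤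
            ∑ j ∈ (range (k + 1)).filter (fun j => k ≤ 2 * j), Λ * (s : ℝ) ^ (-2 : ℝ) := by
          apply Finset.sum_le_sum
          intro j _
          have := (hd p A s n j hs hNW hn10).1
          have := hHH0 (2 * s) j
          simp only [hh]
          linarith
        have a3 : ∑ j ∈ (range (k + 1)).filter (fun j => k ≤ 2 * j), Λ * (s : ℝ) ^ (-2 : ℝ) ≤ 2 * k * (Λ * (s : ℝ) ^ (-2 : ℝ)) := by
          rw [Finset.sum_const, nsmul_eq_mul]
          have a4 : (((range (k + 1)).filter (fun j => k ≤ 2 * j)).card : ℝ) ≤ 2 * k := by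
            have a5 := Finset.card_filter_le (range (k + 1)) (fun j => k ≤ 2 * j)
            rw [Finset.card_range] at a5
            have a6 : ((range (k + 1)).filter (fun j => k ≤ 2 * j)).card ≤ 2 * k := by omega
            exact_mod_cast a6
          gcongr
        have a4 : M * (s : ℝ) ^ (-2 : ℝ) = (s : ℝ) ^ (-(5 / 48) : ℝ) := by
          rw [hM, ← Real.rpow_add hs1]
          norm_num
        have a5 : 1 ≤ Real.exp c₃ * Real.exp (-(c₃ / 8 * (k / M))) := by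
          rw [← Real.exp_add]
          apply Real.one_le_exp
          have : (k : ℝ) / M ≤ 8 := by rw [div_le_iff₀ hM0]; exact a1
          nlinarith
        calc ∑ j ∈ (range (k + 1)).filter (fun j => k ≤ 2 * j), h j ≤ 2 * k * (Λ * (s : ℝ) ^ (-2 : ℝ)) := a2.trans a3
          _ ≤ 2 * (8 * M) * (Λ * (s : ℝ) ^ (-2 : ℝ)) := by gcongr
          _ = 16 * Λ * (M * (s : ℝ) ^ (-2 : ℝ)) * 1 := by ring
          _ ≤ 16 * Λ * (M * (s : ℝ) ^ (-2 : ℝ)) * (Real.exp c₃ * Real.exp (-(c₃ / 8 * (k / M)))) := by gcongr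
          _ = (16 * Λ * Real.exp c₃) * (s : ℝ) ^ (-(5 / 48) : ℝ) * Real.exp (-(c₃ / 8 * (k / M))) := by rw [a4]; ring
          _ ≤ C₄ * (s : ℝ) ^ (-(5 / 48) : ℝ) * Real.exp (-(c₃ / 8 * (k / M))) := by
              gcongr
              rw [hC₄]
              linarith
    apply le_sqrt_mul hsum0 b1 b2 (by positivity)
    have e1 : ((s : ℝ) ^ (-(5 / 96) : ℝ)) ^ 2 = (s : ℝ) ^ (-(5 / 48) : ℝ) := by
      rw [← Real.rpow_natCast, ← Real.rpow_mul hs1.le]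
      norm_num
    have e2 : ((k : ℝ) ^ (-(5 / 182) : ℝ)) ^ 2 = (k : ℝ) ^ (-(5 / 91) : ℝ) := by
      rw [← Real.rpow_natCast, ← Real.rpow_mul hk0.le]
      norm_num
    have e3 : T₀ ^ 2 = 2 * C₂ * C₄ := Real.sq_sqrt (by positivity)
    have e4 : Real.exp (-(c₂ / 2 * (k * τ))) * Real.exp (-(c₃ / 8 * (k / M))) ≤ Real.exp (-(c * (k * (1 / M + τ)))) ^ 2 := by
      rw [← Real.exp_add, ← Real.exp_nat_mul]
      apply Real.exp_le_exp.2
      have f1 : c ≤ c₂ / 4 := min_le_left _ _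
      have f2 : c ≤ c₃ / 16 := min_le_right _ _
      have f3 : 0 ≤ (k : ℝ) / M := by positivity
      have f4 : (k : ℝ) * (1 / M + τ) = k / M + k * τ := by ring
      rw [f4]
      push_cast
      nlinarith [mul_le_mul_of_nonneg_right f1 hkτ, mul_le_mul_of_nonneg_right f2 f3]
    calc 2 * C₂ * (k : ℝ) ^ (-(5 / 91) : ℝ) * Real.exp (-(c₂ / 2 * (k * τ))) *
          (C₄ * (s : ℝ) ^ (-(5 / 48) : ℝ) * Real.exp (-(c₃ / 8 * (k / M)))) =
          2 * C₂ * C₄ * ((s : ℝ) ^ (-(5 / 48) : ℝ) * (k : ℝ) ^ (-(5 / 91) : ℝ)) *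
          (Real.exp (-(c₂ / 2 * (k * τ))) * Real.exp (-(c₃ / 8 * (k / M)))) := by ring
      _ ≤ 2 * C₂ * C₄ * ((s : ℝ) ^ (-(5 / 48) : ℝ) * (k : ℝ) ^ (-(5 / 91) : ℝ)) *
          Real.exp (-(c * (k * (1 / M + τ)))) ^ 2 := by gcongr
      _ = T₀ ^ 2 * (((s : ℝ) ^ (-(5 / 96) : ℝ)) ^ 2 * ((k : ℝ) ^ (-(5 / 182) : ℝ)) ^ 2) *
          Real.exp (-(c * (k * (1 / M + τ)))) ^ 2 := by rw [e1, e2, e3]
      _ = _ := by ring
  have hω : 0 ≤ 1 / M + τ := by positivity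
  have h1 := hts s (1 / M + τ) h hs1 hω h0 hd1 hd2 hsum k hk hsk
  obtain ⟨h2, h3⟩ := h1
  have e1 : -((187 : ℝ) / 96 + 5 / 96 / 2) = -(379 / 192) := by norm_num
  have e2 : -((5 : ℝ) / 182 / 2) = -(5 / 364) := by norm_num
  have e3 : -((743 : ℝ) / 192 + 5 / 96 / 4) = -(1491 / 384) := by norm_num
  have e4 : -((5 : ℝ) / 182 / 4) = -(5 / 728) := by norm_num
  rw [e1, e2] at h2
  rw [e3, e4] at h3
  have hk0 : (0 : ℝ) < k := by exact_mod_cast hk
  have f3 : 0 ≤ (k : ℝ) / M := by positivity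
  have f5 : 0 ≤ (k : ℝ) * τ := by positivity
  have f4 : (k : ℝ) * (1 / M + τ) = k / M + k * τ := by ring
  have hexp : ∀ {c' : ℝ}, c / 4 ≤ c' → Real.exp (-(c' * (k * (1 / M + τ)))) ≤
      Real.exp (-(c / 4 * (k / M))) * Real.exp (-(c / 4 * (k * τ))) := by
    intro c' hc'
    rw [← Real.exp_add, f4]
    apply Real.exp_le_exp.2
    nlinarith [mul_le_mul_of_nonneg_right hc' f3, mul_le_mul_of_nonneg_right hc' f5]
  refine ⟨h0 k, ?_, ?_⟩
  · refine h2.trans ?_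
    have := hexp (by linarith : c / 4 ≤ c / 2)
    rw [mul_assoc (C * _)]
    gcongr
  · refine h3.trans ?_
    have := hexp (le_refl (c / 4))
    rw [mul_assoc (C * _)]
    gcongr

end Q16.FE
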