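import Pool.Agent.Q16.FE.UPB

set_option autoImplicit false

/-! Project FE (helper78), job FE-UPH. -/

namespace Q16.FE

open Finset H974 Pool.Agent.H160R2.CV Pool.Agent.H160R2.CV.Quad H362P Q78.FE

theorem t_UPH (hR1 : S_R1) (hR2 : S_R2) (hTL : S_TL) (hD : S_DIFF) : S_UPH := by
  intro k0 hk0 κ a B hκ ha hB
  obtain ⟨Λ, hΛ, hd⟩ := hD k0 hk0 κ a hκ ha
  obtain ⟨c₂, C₂, hc₂, hC₂, htl⟩ := hTL
  obtain ⟨C, hC, hts⟩ := two_step hR1 hR2 (α := 0) (β := 5 / 91) (B := B) (Λ := Λ) (T₀ := 2 * C₂) (c := c₂ / 2) le_rfl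
    (by norm_num) (by norm_num) hB hΛ (by positivity) (by positivity)
  refine ⟨c₂ / 8, C, by positivity, hC, ?_⟩
  intro p A s n k hs hNW hn hk hsk
  have hp := hNW.hi
  have hp0 : 0 ≤ p := by linarith [hNW.lo]
  have hs0 : 0 < s := by
    have := hk0.1
    rw [hs]
    positivity
  have hs1 : (0 : ℝ) < s := by exact_mod_cast hs0
  have hτ : 0 ≤ (1 / 2 - p) ^ (91 / 36 : ℝ) := Real.rpow_nonneg (by linarith) _
  have hkτ : 0 ≤ (k : ℝ) * (1 / 2 - p) ^ (91 / 36 : ℝ) := by positivity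
  have hok := ok_const hp0 (by linarith : p ≤ 1)
  have h1 := hts s ((1 / 2 - p) ^ (91 / 36 : ℝ)) (HH p n s) hs1 hτ (fun j => Pr_nonneg hok _ _)
    (fun j => (hd p A s n j hs hNW hn).2.1) (fun j => (hd p A s n j hs hNW hn).2.2) (by
      intro j hj _
      have h2 := tl_sum hc₂ hC₂ htl (n := n) hp0 hp hj (fun F => ∃ i, fl (8 * s) (0, 0) i F)
      rw [neg_zero, Real.rpow_zero, one_mul]
      exact h2) k hk hsk
  obtain ⟨h2, h3⟩ := h1
  have e1 : -((187 : ℝ) / 96 + 0 / 2) = -(187 / 96) := by norm_num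
  have e2 : -((5 : ℝ) / 91 / 2) = -(5 / 182) := by norm_num
  have e3 : -((743 : ℝ) / 192 + 0 / 4) = -(743 / 192) := by norm_num
  have e4 : -((5 : ℝ) / 91 / 4) = -(5 / 364) := by norm_num
  rw [e1, e2] at h2
  rw [e3, e4] at h3
  constructor
  · refine h2.trans ?_
    have h4 : Real.exp (-(c₂ / 2 / 2 * (k * (1 / 2 - p) ^ (91 / 36 : ℝ)))) ≤
        Real.exp (-(c₂ / 8 * (k * (1 / 2 - p) ^ (91 / 36 : ℝ)))) := by
      apply Real.exp_le_exp.2
      have : 0 ≤ c₂ * (k * (1 / 2 - p) ^ (91 / 36 : ℝ)) := by positivity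
      linarith
    gcongr
  · refine h3.trans (le_of_eq ?_)
    congr 2
    ring

end Q16.FE
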